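import Pool.Agent.helper38.VA.Spec
import Pool.Agent.helper48.SLn.Index

set_option autoImplicit false

namespace Pool.Agent.VA

open Matrix Module Pool.Agent.PR Pool.Agent.H48SL

/-- `(1 + x) ^ k = 1 + x (k + x y)` -/
theorem SOL_pow {R : Type*} [Ring R] (x : R) (k : ℕ) :
    ∃ y : R, Commute x y ∧ (1 + x) ^ k = 1 + x * ((k : R) + x * y) := by
  induction k with
  | zero => exact ⟨0, Commute.zero_right _, by simp⟩
  | succ k ih =>
    obtain ⟨y, hy, h⟩ := ih
    refine ⟨y + (k : R) + x * y, ?_, ?_⟩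
    · exact ((hy.add_right (Nat.commute_cast x k)).add_right ((Commute.refl x).mul_right hy))
    · rw [pow_succ, h]
      have h1 : (k : R) * x = x * k := (Nat.commute_cast x k).eq.symm
      have h2 : y * x = x * y := hy.eq.symm
      push_cast
      simp only [mul_add, add_mul, mul_one, one_mul, mul_assoc, h1, h2]
      abel

/-- a unipotent element of finite order is trivial, in characteristic zero -/
theorem SOL_tors {R : Type*} [Ring R] [Algebra ℚ R] (x : R) (hx : IsNilpotent x) (k : ℕ) (hk : 0 < k)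
    (h : (1 + x) ^ k = 1) : x = 0 := by
  obtain ⟨y, hy, h1⟩ := SOL_pow x k
  rw [h] at h1
  have h2 : x * ((k : R) + x * y) = 0 := by
    have := h1
    rw [eq_comm, add_eq_left] at this
    exact this
  have h3 : IsNilpotent (x * y) := hy.isNilpotent_mul_right hx
  have h4 : IsUnit (k : R) := by
    have h5 : (k : R) = algebraMap ℚ R (k : ℚ) := by simp
    rw [h5]
    exact (IsUnit.mk0 (k : ℚ) (by exact_mod_cast hk.ne')).map _
  have h6 : IsUnit ((k : R) + x * y) := by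
    apply h3.isUnit_add_left_of_commute h4
    exact (Nat.commute_cast _ k)
  obtain ⟨u, hu⟩ := h6
  rw [← hu] at h2
  have h7 : x * (u : R) * (↑u⁻¹ : R) = 0 := by rw [h2, zero_mul]
  rwa [mul_assoc, Units.mul_inv, mul_one] at h7

/-- nilpotency over the algebraic closure and over `ℚ` -/
theorem SOL_nil {n : ℕ} (a : SLZ n)
    (h : IsNilpotent (Matrix.toLin' (stdM (AlgebraicClosure ℚ) a) - 1)) :
    IsNilpotent (stdM ℚ a - 1) := by
  obtain ⟨m, hm⟩ := h
  refine ⟨m, ?_⟩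
  have h1 : Matrix.toLin' (stdM (AlgebraicClosure ℚ) a) - 1 =
      (Matrix.toLinAlgEquiv' : Matrix (Fin n) (Fin n) (AlgebraicClosure ℚ) ≃ₐ[AlgebraicClosure ℚ] _)
        (stdM (AlgebraicClosure ℚ) a - 1) := by
    rw [map_sub, map_one]
    rfl
  rw [h1, ← map_pow] at hm
  have h2 : (stdM (AlgebraicClosure ℚ) a - 1) ^ m = 0 :=
    (Matrix.toLinAlgEquiv' : Matrix (Fin n) (Fin n) (AlgebraicClosure ℚ) ≃ₐ[AlgebraicClosure ℚ] _).injective
      (by rw [hm, map_zero])
  have h3 : stdM (AlgebraicClosure ℚ) a - 1 =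
      (algebraMap ℚ (AlgebraicClosure ℚ)).mapMatrix (stdM ℚ a - 1) := by
    rw [map_sub, map_one]
    congr 1
  rw [h3, ← map_pow] at h2
  have h4 : Function.Injective (algebraMap ℚ (AlgebraicClosure ℚ)) := RingHom.injective _
  ext i j
  have h5 := congrFun (congrFun h2 i) j
  rw [RingHom.mapMatrix_apply, Matrix.map_apply, Matrix.zero_apply] at h5
  rw [Matrix.zero_apply]
  exact h4 (by rw [h5, map_zero])

/-- commuting with a power -/
theorem SOL_com {n : ℕ} (hMK : MK_stmt) (b a : SLZ n) (hb : b ∈ Cong (Fin n) 3) (j : ℕ) (hj : 0 < j)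
    (h : b ^ j * a = a * b ^ j) : b * a = a * b := by
  obtain ⟨B, hB⟩ := mem_Cong.1 hb
  obtain ⟨B', hB'⟩ := mem_Cong.1 (inv_mem hb)
  let T : Matrix (Fin n) (Fin n) ℤ →ₗ[ℤ] Matrix (Fin n) (Fin n) ℤ :=
    (LinearMap.mulLeft ℤ (b : Matrix (Fin n) (Fin n) ℤ)) ∘ₗ
      (LinearMap.mulRight ℤ ((b⁻¹ : SLZ n) : Matrix (Fin n) (Fin n) ℤ))
  have hT : ∀ X, T X = (b : Matrix (Fin n) (Fin n) ℤ) * X * ((b⁻¹ : SLZ n) : Matrix (Fin n) (Fin n) ℤ) := by
    intro X
    simp only [T, LinearMap.comp_apply, LinearMap.mulLeft_apply, LinearMap.mulRight_apply, mul_assoc]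
  have hTc : ∀ c : SLZ n, T (c : Matrix (Fin n) (Fin n) ℤ) = ((b * c * b⁻¹ : SLZ n) : Matrix (Fin n) (Fin n) ℤ) := by
    intro c
    rw [hT, Matrix.SpecialLinearGroup.coe_mul, Matrix.SpecialLinearGroup.coe_mul]
  have hTj : ∀ i : ℕ, (T ^ i) (a : Matrix (Fin n) (Fin n) ℤ) =
      ((b ^ i * a * (b ^ i)⁻¹ : SLZ n) : Matrix (Fin n) (Fin n) ℤ) := by
    intro i
    induction i with
    | zero => simp
    | succ i ih =>
      rw [pow_succ', Module.End.mul_apply, ih, hTc]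
      congr 1
      group
  have h1 := hMK (Matrix (Fin n) (Fin n) ℤ) T (fun X => by
    refine ⟨B * X * ((b⁻¹ : SLZ n) : Matrix (Fin n) (Fin n) ℤ) + X * B', ?_⟩
    rw [hT, hB]
    rw [smul_add]
    have e1 : X * ((b⁻¹ : SLZ n) : Matrix (Fin n) (Fin n) ℤ) = X + (3 : ℤ) • (X * B') := by
      rw [hB', mul_add, mul_one, Matrix.mul_smul]
      rfl
    have e2 : (3 : ℤ) • (B * X * ((b⁻¹ : SLZ n) : Matrix (Fin n) (Fin n) ℤ)) =
        ((3 : ℕ) : ℤ) • B * X * ((b⁻¹ : SLZ n) : Matrix (Fin n) (Fin n) ℤ) := by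
      rw [Matrix.smul_mul, Matrix.smul_mul]
      rfl
    rw [e2, add_mul, add_mul, one_mul, e1]
    abel) j hj (a : Matrix (Fin n) (Fin n) ℤ) (by
      rw [hTj]
      congr 1
      rw [h]
      group)
  rw [hTc] at h1
  have h2 : b * a * b⁻¹ = a := Subtype.ext h1
  calc b * a = b * a * b⁻¹ * b := by group
    _ = a * b := by rw [h2]

theorem SOL (hMAL : Z_MAL_stmt) (hUNIP : Z_UNIP_stmt) (hHSU : HSU_stmt) (hMK : MK_stmt) : SOL_stmt := by
  intro n P hP hNVA
  have hCf : (Cong (Fin n) 3).FiniteIndex := Subgroup.finiteIndex_ker _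
  obtain ⟨Q, hQ⟩ : ∃ Q : Subgroup (SLZ n), Q = P ⊓ Cong (Fin n) 3 := ⟨_, rfl⟩
  have hQP : Q ≤ P := hQ ▸ inf_le_left
  have hQC : Q ≤ Cong (Fin n) 3 := hQ ▸ inf_le_right
  have hQrel : Q.relIndex P ≠ 0 := by
    rw [hQ, Subgroup.inf_relIndex_left]
    have := hCf
    exact Subgroup.FiniteIndex.index_ne_zero
  have hQs : Group.IsSolvable Q :=
    Group.isSolvable_of_isSolvable_injective (f := Subgroup.inclusion hQP) (Subgroup.inclusion_injective hQP)
  let ρ : Q →* Module.End (AlgebraicClosure ℚ) (Fin n → AlgebraicClosure ℚ) :=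
    ((Matrix.toLinAlgEquiv' : Matrix (Fin n) (Fin n) (AlgebraicClosure ℚ) ≃ₐ[AlgebraicClosure ℚ] _) :
      Matrix (Fin n) (Fin n) (AlgebraicClosure ℚ) →* Module.End (AlgebraicClosure ℚ) (Fin n → AlgebraicClosure ℚ)).comp
      ((stdHom n (AlgebraicClosure ℚ)).comp Q.subtype)
  have hρ : ∀ g : Q, ρ g = Matrix.toLin' (stdM (AlgebraicClosure ℚ) (g : SLZ n)) := fun g => rfl
  obtain ⟨G₁, hG₁, hTri⟩ := hMAL _ _ Q hQs ρ
  obtain ⟨emb, hemb⟩ : ∃ emb : G₁ →* SLZ n, emb = Q.subtype.comp G₁.subtype := ⟨_, rfl⟩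
  have hembi : Function.Injective emb := by
    rw [hemb]
    exact (Subgroup.subtype_injective Q).comp (Subgroup.subtype_injective G₁)
  have hembv : ∀ g : G₁, emb g = ((g : Q) : SLZ n) := fun g => by rw [hemb]; rfl
  have hρi : Function.Injective (ρ.comp G₁.subtype) := by
    intro g h hgh
    apply hembi
    rw [hembv, hembv]
    have h1 : Matrix.toLin' (stdM (AlgebraicClosure ℚ) ((g : Q) : SLZ n)) =
      Matrix.toLin' (stdM (AlgebraicClosure ℚ) ((h : Q) : SLZ n)) := hgh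
    have h2 := Matrix.toLin'.injective h1
    apply Matrix.SpecialLinearGroup.ext
    intro i j
    have h3 := congrFun (congrFun h2 i) j
    unfold stdM at h3
    rw [Matrix.map_apply, Matrix.map_apply] at h3
    simpa using h3
  obtain ⟨U, hUn, hUc, hUu, hUnil⟩ := hUNIP _ _ G₁ (ρ.comp G₁.subtype) hTri hρi
  have hUnip : ∀ g : G₁, g ∈ U → IsNilpotent (stdM ℚ (emb g) - 1) := by
    intro g hg
    rw [hembv]
    exact SOL_nil _ ((hUu g).1 hg)
  have hUinf : ∀ g ∈ U, g ≠ 1 → ∀ k : ℕ, 0 < k → g ^ k ≠ 1 := by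
    intro g hg hg1 k hk hgk
    apply hg1
    have h1 := hUnip g hg
    have h2 : stdM ℚ (emb g) - 1 = 0 := by
      apply SOL_tors _ h1 k hk
      rw [add_sub_cancel, ← stdHom_apply, ← map_pow, ← map_pow, hgk, map_one, map_one]
    apply hembi
    rw [map_one]
    apply Matrix.SpecialLinearGroup.ext
    intro i j
    have h3 := congrFun (congrFun (sub_eq_zero.1 h2) i) j
    unfold stdM at h3
    rw [Matrix.map_apply] at h3
    by_cases hij : i = j
    · subst hij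
      simp at h3 ⊢
      exact_mod_cast h3
    · simp [hij] at h3 ⊢
      exact_mod_cast h3
  have hembP : ∀ g : G₁, emb g ∈ P := fun g => by rw [hembv]; exact hQP (g : Q).2
  have htr : ∀ x y z : G₁, x * z = z * x → y * z = z * y → x * y = z * (y * x) →
      (∀ k : ℕ, 0 < k → z ^ k ≠ 1) → HIn P := by
    intro x y z h1 h2 h3 h4
    refine ⟨emb x, hembP x, emb y, hembP y, emb z, hembP z, ?_, ?_, ?_, ?_⟩
    · rw [← map_mul, ← map_mul, h1]
    · rw [← map_mul, ← map_mul, h2]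
    · rw [← map_mul, ← map_mul, ← map_mul, h3]
    · intro k hk h5
      rw [← map_pow] at h5
      exact h4 k hk (hembi (by rw [h5, map_one]))
  by_cases hab : ∃ x ∈ U, ∃ y ∈ U, x * y ≠ y * x
  · left
    obtain ⟨x, -, y, -, z, -, h1, h2, h3, h4⟩ := hHSU G₁ U hUnil hUinf hab
    exact htr x y z h1 h2 h3 h4
  push Not at hab
  by_cases hA : ∃ b : G₁, ∀ j : ℕ, 0 < j → ∃ a ∈ U, b ^ j * a ≠ a * b ^ j
  · right
    obtain ⟨b, hb⟩ := hA
    refine ⟨U.map emb, ?_, ?_, ?_, emb b, hembP b, ?_, ?_⟩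
    · rintro _ ⟨g, -, rfl⟩
      exact hembP g
    · rintro _ ⟨g, hg, rfl⟩
      exact hUnip g hg
    · rintro _ ⟨g, hg, rfl⟩ _ ⟨h, hh, rfl⟩
      rw [← map_mul, ← map_mul, hab g hg h hh]
    · rintro _ ⟨g, hg, rfl⟩
      refine ⟨b * g * b⁻¹, hUn.conj_mem g hg b, ?_⟩
      rw [map_mul, map_mul, map_inv]
    · intro j hj
      obtain ⟨a, ha, hne⟩ := hb j hj
      refine ⟨emb a, ⟨a, ha, rfl⟩, fun h => hne ?_⟩
      rw [← map_pow, ← map_mul, ← map_mul] at h
      exact hembi h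
  push Not at hA
  left
  have hcen : ∀ b : G₁, ∀ a ∈ U, b * a = a * b := by
    intro b a ha
    obtain ⟨j, hj, hj'⟩ := hA b
    apply hembi
    rw [map_mul, map_mul]
    refine SOL_com hMK (emb b) (emb a) ?_ j hj ?_
    · rw [hembv]
      exact hQC (b : Q).2
    · rw [← map_pow, ← map_mul, ← map_mul, hj' a ha]
  have hG₁' : (G₁.map Q.subtype).relIndex P ≠ 0 := by
    refine Subgroup.relIndex_ne_zero_trans (K := Q) ?_ hQrel
    have h1 : (G₁.map Q.subtype).subgroupOf Q = G₁ := by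
      unfold Subgroup.subgroupOf
      exact Subgroup.comap_map_eq_self_of_injective (Subgroup.subtype_injective Q) G₁
    unfold Subgroup.relIndex
    rw [h1]
    exact hG₁.index_ne_zero
  have hnc : ∃ x y : G₁, x * y ≠ y * x := by
    by_contra hcon
    push Not at hcon
    apply hG₁'
    apply hNVA
    · rintro _ ⟨g, -, rfl⟩
      exact hQP g.2
    · rintro _ ⟨g, hg, rfl⟩ _ ⟨h, hh, rfl⟩
      have h1 := congrArg emb (hcon ⟨g, hg⟩ ⟨h, hh⟩)
      rw [map_mul, map_mul, hembv, hembv] at h1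
      exact h1
  obtain ⟨x, y, hxy⟩ := hnc
  have hzU : x * y * x⁻¹ * y⁻¹ ∈ U := hUc (by
    have := Subgroup.commutator_mem_commutator (H₁ := (⊤ : Subgroup G₁)) (H₂ := (⊤ : Subgroup G₁))
      (Subgroup.mem_top x) (Subgroup.mem_top y)
    rw [commutatorElement_def] at this
    exact this)
  have hz1 : x * y * x⁻¹ * y⁻¹ ≠ 1 := by
    intro h
    apply hxy
    calc x * y = x * y * x⁻¹ * y⁻¹ * (y * x) := by group
      _ = y * x := by rw [h, one_mul]
  refine htr x y _ (hcen x _ hzU) (hcen y _ hzU) ?_ (hUinf _ hzU hz1)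
  group

end Pool.Agent.VA
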